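import Mathlib

/-!
# Rank facts and an embedding lemma
-/

set_option autoImplicit false

namespace Pool.Agent.X246.RSH

open Finset

section rank

variable {K : Type} [Field K]

theorem rank_add_le {X Y : Type} [Fintype X] [Fintype Y] (M N : Matrix X Y K) :
    (M + N).rank ≤ M.rank + N.rank := by
  rw [Matrix.rank_eq_finrank_span_row, Matrix.rank_eq_finrank_span_row M,
    Matrix.rank_eq_finrank_span_row N]
  refine le_trans (Submodule.finrank_mono ?_) (Submodule.finrank_add_le_finrank_add_finrank _ _)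
  rw [Submodule.span_le]
  rintro _ ⟨x, rfl⟩
  exact Submodule.add_mem_sup (Submodule.subset_span ⟨x, rfl⟩) (Submodule.subset_span ⟨x, rfl⟩)

theorem rank_const_le {X Y : Type} [Fintype X] [Fintype Y] (c : K) :
    (Matrix.of fun (_ : X) (_ : Y) => c).rank ≤ 1 := by
  have : (Matrix.of fun (_ : X) (_ : Y) => c) = Matrix.vecMulVec (fun _ => c) (fun _ => 1) := by
    ext
    simp [Matrix.vecMulVec]
  rw [this]
  exact Matrix.rank_vecMulVec_le _ _

/-- an affine change of the entries changes the rank by at most one -/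
theorem rank_affine_le {X Y : Type} [Fintype X] [Fintype Y] (M : Matrix X Y K) (a c : K) :
    (Matrix.of fun x y => a * M x y + c).rank ≤ M.rank + 1 := by
  have h1 : (Matrix.of fun x y => a * M x y + c) =
      (Matrix.of fun x y => a * M x y) + (Matrix.of fun _ _ => c) := by
    ext
    simp
  rw [h1]
  refine (rank_add_le _ _).trans (add_le_add ?_ (rank_const_le c))
  rw [Matrix.rank_eq_finrank_span_row, Matrix.rank_eq_finrank_span_row M]
  refine Submodule.finrank_mono ?_
  rw [Submodule.span_le]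
  rintro _ ⟨x, rfl⟩
  have h2 : (Matrix.of fun x y => a * M x y).row x = a • M.row x := by
    ext y
    simp [Matrix.row]
  rw [h2]
  exact Submodule.smul_mem _ _ (Submodule.subset_span ⟨x, rfl⟩)

/-- a basis of a set of rows -/
theorem rows_basis {X Y : Type} [Fintype X] [Fintype Y] (M : Matrix X Y K) (S : Set X) :
    ∃ B : Finset X, (∀ b ∈ B, b ∈ S) ∧ B.card ≤ M.rank ∧
      ∀ x ∈ S, M.row x ∈ Submodule.span K (M.row '' B) := by
  classical
  obtain ⟨b, hb, hspan, hind⟩ := exists_linearIndependent K (M.row '' S)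
  have hfin : b.Finite := (Set.toFinite _).subset hb
  have hch : ∀ v : b, ∃ x ∈ S, M.row x = v := fun v => hb v.2
  choose g hgS hg using hch
  have : Fintype b := hfin.fintype
  refine ⟨univ.image g, ?_, ?_, ?_⟩
  · intro x hx
    obtain ⟨v, _, rfl⟩ := mem_image.1 hx
    exact hgS v
  · refine card_image_le.trans ?_
    rw [card_univ, Matrix.rank_eq_finrank_span_row]
    have h1 := finrank_span_eq_card hind
    rw [Subtype.range_coe, hspan] at h1
    rw [← h1]
    exact Submodule.finrank_mono (Submodule.span_mono (Set.image_subset_range _ _))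
  · intro x hx
    have h1 : M.row x ∈ Submodule.span K b := by
      rw [hspan]
      exact Submodule.subset_span ⟨x, hx, rfl⟩
    refine Submodule.span_mono ?_ h1
    intro v hv
    exact ⟨g ⟨v, hv⟩, by simp, hg ⟨v, hv⟩⟩

theorem apply_eq_zero {X Y : Type} [Fintype X] [Fintype Y] {M : Matrix X Y K} {B : Finset X}
    (φ : (Y → K) →ₗ[K] K) (h : ∀ b ∈ B, φ (M.row b) = 0) {x : X}
    (hx : M.row x ∈ Submodule.span K (M.row '' B)) : φ (M.row x) = 0 := by
  have h1 : Submodule.span K (M.row '' B) ≤ LinearMap.ker φ := by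
    rw [Submodule.span_le]
    rintro _ ⟨b, hb, rfl⟩
    exact h b hb
  exact h1 hx

open Classical in
/-- the `0/1` matrix of a relation -/
noncomputable def ind (K : Type) [Field K] {X Y : Type} (E : X → Y → Prop) : Matrix X Y K :=
  Matrix.of fun x y => if E x y then 1 else 0

theorem ind_pos {X Y : Type} {E : X → Y → Prop} {x : X} {y : Y} (h : E x y) :
    ind K E x y = 1 := by
  simp [ind, h]

theorem ind_neg {X Y : Type} {E : X → Y → Prop} {x : X} {y : Y} (h : ¬ E x y) :
    ind K E x y = 0 := by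
  simp [ind, h]

theorem ind_eq_zero {X Y : Type} {E : X → Y → Prop} {x : X} {y : Y} (h : ind K E x y = 0) :
    ¬ E x y := by
  intro h1
  rw [ind_pos h1] at h
  exact one_ne_zero h

theorem rank_ind_not {X Y : Type} [Fintype X] [Fintype Y] (E : X → Y → Prop) :
    (ind K fun x y => ¬ E x y).rank ≤ (ind K E).rank + 1 := by
  have h1 : (ind K fun x y => ¬ E x y) = Matrix.of fun x y => (-1) * (ind K E) x y + 1 := by
    ext x y
    by_cases h : E x y
    · simp [ind, h]
    · simp [ind, h]
  rw [h1]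
  exact rank_affine_le _ _ _

/-- every subset of `U` has a small subset that decides the relation on `W` -/
def Bas {V : Type} (N : ℕ) (U W : Set V) (R : V → V → Prop) : Prop :=
  ∀ S : Set V, S ⊆ U → ∃ B : Finset V, (∀ b ∈ B, b ∈ S) ∧ B.card ≤ N ∧
    ∀ y ∈ W, (∀ b ∈ B, ¬ R b y) → ∀ x ∈ S, ¬ R x y

theorem Bas.anti {V : Type} {N : ℕ} {U U' W W' : Set V} {R : V → V → Prop} (h : Bas N U W R)
    (hU : U' ⊆ U) (hW : W' ⊆ W) : Bas N U' W' R := by
  intro S hS
  obtain ⟨B, h1, h2, h3⟩ := h S (hS.trans hU)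
  exact ⟨B, h1, h2, fun y hy => h3 y (hW hy)⟩

theorem bas_true {V : Type} {N : ℕ} (hN : 1 ≤ N) (U W : Set V) :
    Bas N U W (fun _ _ : V => True) := by
  intro S _
  rcases S.eq_empty_or_nonempty with rfl | ⟨x, hx⟩
  · exact ⟨∅, by simp, by simp, fun y _ _ x hx => absurd hx (by simp)⟩
  · exact ⟨{x}, by simpa using hx, by simpa using hN,
      fun y _ h => absurd trivial (h x (by simp))⟩

/-- a small set of rows decides agreement with `σ` -/
theorem bas_rows {X Y : Type} [Fintype X] [Fintype Y] (E : X → Y → Prop) (σ : Prop) (S : Set X) :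
    ∃ B : Finset X, (∀ b ∈ B, b ∈ S) ∧ B.card ≤ (ind K E).rank + 1 ∧
      ∀ y, (∀ b ∈ B, ¬ (E b y ↔ σ)) → ∀ x ∈ S, ¬ (E x y ↔ σ) := by
  by_cases hσ : σ
  · obtain ⟨B, hB, hc, hs⟩ := rows_basis (ind K E) S
    refine ⟨B, hB, by omega, fun y hy x hx => ?_⟩
    have h1 := apply_eq_zero (LinearMap.proj y) (fun b hb => by
      have := hy b hb
      simp only [hσ, iff_true] at this
      exact ind_neg this) (hs x hx)
    simp only [hσ, iff_true]
    exact ind_eq_zero h1
  · obtain ⟨B, hB, hc, hs⟩ := rows_basis (ind K fun x y => ¬ E x y) S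
    refine ⟨B, hB, hc.trans (rank_ind_not E), fun y hy x hx => ?_⟩
    have h1 := apply_eq_zero (LinearMap.proj y) (fun b hb => by
      have := hy b hb
      simp only [hσ, iff_false, not_not] at this
      exact ind_neg (not_not.2 this)) (hs x hx)
    simp only [hσ, iff_false, not_not]
    exact not_not.1 (ind_eq_zero h1)

theorem bas_rank {V : Type} [Fintype V] (E : V → V → Prop) (σ : Prop) {N : ℕ}
    (hN : (ind K E).rank + 1 ≤ N) (U W : Set V) : Bas N U W (fun x y => (E x y ↔ σ)) := by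
  intro S _
  obtain ⟨B, h1, h2, h3⟩ := bas_rows (K := K) E σ S
  exact ⟨B, h1, h2.trans hN, fun y _ => h3 y⟩

/-- the property for a relation between the two summands -/
theorem bas_sum {X Y : Type} [Fintype X] [Fintype Y] (E : X → Y → Prop) (σ : Prop) {N : ℕ}
    (hN : (ind K E).rank + 1 ≤ N) (R : X ⊕ Y → X ⊕ Y → Prop)
    (hR : ∀ x y, R (Sum.inl x) (Sum.inr y) ↔ (E x y ↔ σ)) :
    Bas N (Set.range Sum.inl) (Set.range Sum.inr) R := by
  classical
  intro S hS
  obtain ⟨B, h1, h2, h3⟩ := bas_rows (K := K) E σ (Sum.inl ⁻¹' S)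
  refine ⟨B.image Sum.inl, ?_, (card_image_le.trans h2).trans hN, ?_⟩
  · intro b hb
    obtain ⟨x, hx, rfl⟩ := mem_image.1 hb
    exact h1 x hx
  · rintro _ ⟨y, rfl⟩ hb x hx
    obtain ⟨x, rfl⟩ := hS hx
    rw [hR]
    exact h3 y (fun b hb' => by
      have := hb (Sum.inl b) (mem_image_of_mem _ hb')
      rwa [hR] at this) x hx

/-- the rank of a block triangular matrix -/
theorem rank_blocks {X X' Y Y' : Type} [Fintype X] [Fintype X'] [Fintype Y] [Fintype Y']
    (M : Matrix (X ⊕ X') (Y ⊕ Y') K) (h : ∀ x y, M (Sum.inl x) (Sum.inr y) = 0) :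
    (Matrix.of fun x y => M (Sum.inl x) (Sum.inl y)).rank +
      (Matrix.of fun x y => M (Sum.inr x) (Sum.inr y)).rank ≤ M.rank := by
  rw [Matrix.rank_eq_finrank_span_row, Matrix.rank_eq_finrank_span_row,
    Matrix.rank_eq_finrank_span_row M]
  set W := Submodule.span K (Set.range M.row) with hW
  let π : (Y ⊕ Y' → K) →ₗ[K] (Y' → K) := LinearMap.funLeft K K Sum.inr
  let ρ : (Y ⊕ Y' → K) →ₗ[K] (Y → K) := LinearMap.funLeft K K Sum.inl
  have h1 := LinearMap.finrank_range_add_finrank_ker (π.domRestrict W)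
  have h2 : Submodule.span K (Set.range (Matrix.of fun x y => M (Sum.inr x) (Sum.inr y)).row) ≤
      LinearMap.range (π.domRestrict W) := by
    rw [Submodule.span_le]
    rintro _ ⟨x, rfl⟩
    exact ⟨⟨M.row (Sum.inr x), Submodule.subset_span ⟨_, rfl⟩⟩, rfl⟩
  have h3 : Submodule.span K (Set.range (Matrix.of fun x y => M (Sum.inl x) (Sum.inl y)).row) ≤
      ((LinearMap.ker (π.domRestrict W)).map W.subtype).map ρ := by
    rw [Submodule.span_le]
    rintro _ ⟨x, rfl⟩
    refine ⟨M.row (Sum.inl x), ⟨⟨M.row (Sum.inl x), Submodule.subset_span ⟨_, rfl⟩⟩, ?_, rfl⟩, rfl⟩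
    rw [SetLike.mem_coe, LinearMap.mem_ker]
    ext y
    exact h x y
  have h4 := Submodule.finrank_mono h3
  have h5 := Submodule.finrank_map_le ρ ((LinearMap.ker (π.domRestrict W)).map W.subtype)
  have h6 := Submodule.finrank_map_le W.subtype (LinearMap.ker (π.domRestrict W))
  have h7 := Submodule.finrank_mono h2
  omega

/-- a homogeneous rectangle splits the rank -/
theorem rank_pair {X Y : Type} [Fintype X] [Fintype Y] (E : X → Y → Prop) (X' : Set X) (Y' : Set Y)
    (σ : Prop) (h : ∀ x ∈ X', ∀ y ∈ Y', (E x y ↔ σ)) {A B : Type} [Fintype A] [Fintype B]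
    (f : A → X) (g : B → Y) (hf : ∀ a, f a ∈ X') (hg : ∀ b, g b ∈ Y') :
    (ind K fun a y => E (f a) y).rank + (ind K fun x b => E x (g b)).rank ≤
      (ind K E).rank + 3 := by
  classical
  set c : K := if σ then 1 else 0 with hc
  set M : Matrix (A ⊕ X) (Y ⊕ B) K :=
    (Matrix.of fun x y => 1 * ind K E x y + (-c)).submatrix (Sum.elim f id) (Sum.elim id g) with hM
  have h1 : M.rank ≤ (ind K E).rank + 1 :=
    (Matrix.rank_submatrix_le _ _ _).trans (rank_affine_le _ _ _)
  have h2 := rank_blocks M (by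
    intro a b
    simp only [hM, Matrix.submatrix_apply, Sum.elim_inl, Sum.elim_inr, Matrix.of_apply, one_mul]
    have h3 := h (f a) (hf a) (g b) (hg b)
    by_cases hσ : σ
    · rw [ind_pos (h3.2 hσ), hc, if_pos hσ]
      ring
    · rw [ind_neg (fun h4 => hσ (h3.1 h4)), hc, if_neg hσ]
      ring)
  have h3 : (ind K fun a y => E (f a) y).rank ≤
      (Matrix.of fun x y => M (Sum.inl x) (Sum.inl y)).rank + 1 := by
    refine le_trans (le_of_eq ?_) (rank_affine_le _ 1 c)
    congr 1
    ext a y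
    simp [hM, ind]
  have h4 : (ind K fun x b => E x (g b)).rank ≤
      (Matrix.of fun x y => M (Sum.inr x) (Sum.inr y)).rank + 1 := by
    refine le_trans (le_of_eq ?_) (rank_affine_le _ 1 c)
    congr 1
    ext a y
    simp [hM, ind]
  omega

end rank

/-! ### The embedding lemma -/

section embed

variable {V : Type} (Easy : ℕ → Set V → Prop) (N N₀ : ℕ)

/-- either the pattern is found, or there is a pair of hard sets without the relation -/
theorem embed (hmono : ∀ i S T, S ⊆ T → Easy i T → Easy i S)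
    (hstep : ∀ i S, Easy i S → Easy (i + 1) S)
    (hU0 : ∀ (S : Set V) (ι : Type) [Fintype ι] (f : ι → Set V), Fintype.card ι ≤ N₀ →
      (∀ a, Easy 0 (f a)) → (∀ x ∈ S, ∃ a, x ∈ f a) → Easy 1 S)
    (hU1 : ∀ (i : ℕ) (S : Set V) (ι : Type) [Fintype ι] (f : ι → Set V), Fintype.card ι ≤ N + 1 →
      (∀ a, Easy (i + 1) (f a)) → (∀ x ∈ S, ∃ a, x ∈ f a) → Easy (i + 2) S)
    (A : Type) [Fintype A] : ∀ (k : ℕ), k + Fintype.card A ≤ N₀ →
    ∀ (S : Fin k → Set V) (T : A → Set V) (R : Fin k → Fin k → V → V → Prop)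
      (Q : Fin k → A → V → V → Prop), (∀ i j, Bas N (S i) (S j) (R i j)) →
      (∀ i a, Bas N (S i) (T a) (Q i a)) →
      (∀ i, ¬ Easy (k + 1) (S i)) → (∀ a, ¬ Easy (k + 1) (T a)) →
      (∃ f : Fin k → V, (∀ i, f i ∈ S i) ∧ (∀ i j, i < j → R i j (f i) (f j)) ∧
        ∀ a, ¬ Easy 1 {y | y ∈ T a ∧ ∀ i, Q i a (f i) y}) ∨
      (∃ X Y : Set V, ¬ Easy 0 X ∧ ¬ Easy 0 Y ∧
        ((∃ i j, i < j ∧ X ⊆ S i ∧ Y ⊆ S j ∧ ∀ x ∈ X, ∀ y ∈ Y, ¬ R i j x y) ∨
          ∃ i a, X ⊆ S i ∧ Y ⊆ T a ∧ ∀ x ∈ X, ∀ y ∈ Y, ¬ Q i a x y)) := by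
  classical
  have hup : ∀ i j S, i ≤ j → Easy i S → Easy j S := by
    intro i j S hij h
    induction j, hij using Nat.le_induction with
    | base => exact h
    | succ n _ ih => exact hstep _ _ ih
  intro k
  induction k with
  | zero =>
    intro _ S T R Q _ _ _ hT
    refine Or.inl ⟨fun i => i.elim0, fun i => i.elim0, fun i => i.elim0, fun a ha => hT a ?_⟩
    refine hmono _ _ _ ?_ ha
    intro y hy
    exact ⟨hy, fun i => i.elim0⟩
  | succ k ih =>
    intro hk S T R Q hR hQ hS hT
    let W : Fin k ⊕ A → Set V := Sum.elim (fun j => S j.succ) T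
    let P : Fin k ⊕ A → V → V → Prop := Sum.elim (fun j => R 0 j.succ) (fun a => Q 0 a)
    have hW : ∀ t, ¬ Easy (k + 2) (W t) := by
      rintro (j | a)
      · exact hS j.succ
      · exact hT a
    have hP : ∀ t, Bas N (S 0) (W t) (P t) := by
      rintro (j | a)
      · exact hR 0 j.succ
      · exact hQ 0 a
    by_cases hgood : ∃ v ∈ S 0, ∀ t, ¬ Easy (k + 1) {y | y ∈ W t ∧ P t v y}
    · obtain ⟨v, hv, hg⟩ := hgood
      rcases ih (by omega) (fun j => {y | y ∈ S j.succ ∧ R 0 j.succ v y})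
        (fun a => {y | y ∈ T a ∧ Q 0 a v y}) (fun i j => R i.succ j.succ) (fun i a => Q i.succ a)
        (fun i j => (hR _ _).anti (fun y hy => hy.1) (fun y hy => hy.1))
        (fun i a => (hQ _ _).anti (fun y hy => hy.1) (fun y hy => hy.1)) (fun j => hg (Sum.inl j)) (fun a => hg (Sum.inr a))
        with ⟨f, hf1, hf2, hf3⟩ | ⟨X, Y, hX, hY, h⟩
      · refine Or.inl ⟨Fin.cons v f, ?_, ?_, ?_⟩
        · intro i
          refine Fin.cases ?_ (fun i => ?_) i
          · simpa using hv
          · simpa using (hf1 i).1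
        · intro i j hij
          induction i using Fin.cases with
          | zero =>
            induction j using Fin.cases with
            | zero => exact absurd hij (lt_irrefl _)
            | succ j => simpa using (hf1 j).2
          | succ i =>
            induction j using Fin.cases with
            | zero => exact absurd hij (Fin.not_lt_zero _)
            | succ j => simpa using hf2 i j (Fin.succ_lt_succ_iff.1 hij)
        · intro a ha
          refine hf3 a (hmono _ _ _ ?_ ha)
          intro y hy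
          refine ⟨hy.1.1, fun i => ?_⟩
          refine Fin.cases ?_ (fun i => ?_) i
          · simpa using hy.1.2
          · simpa using hy.2 i
      · refine Or.inr ⟨X, Y, hX, hY, ?_⟩
        rcases h with ⟨i, j, hij, hXi, hYj, h⟩ | ⟨i, a, hXi, hYa, h⟩
        · exact Or.inl ⟨i.succ, j.succ, Fin.succ_lt_succ_iff.2 hij, fun x hx => (hXi hx).1,
            fun y hy => (hYj hy).1, h⟩
        · exact Or.inr ⟨i.succ, a, fun x hx => (hXi hx).1, fun y hy => (hYa hy).1, h⟩
    · push Not at hgood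
      have h1 : ∃ t, ¬ Easy 0 {v | v ∈ S 0 ∧ Easy (k + 1) {y | y ∈ W t ∧ P t v y}} := by
        by_contra hcon
        push Not at hcon
        refine hS 0 (hup 1 _ _ (by omega) (hU0 (S 0) (Fin k ⊕ A) _ ?_ hcon ?_))
        · rw [Fintype.card_sum, Fintype.card_fin]
          omega
        · intro v hv
          obtain ⟨t, ht⟩ := hgood v hv
          exact ⟨t, hv, ht⟩
      obtain ⟨t, ht⟩ := h1
      set X := {v | v ∈ S 0 ∧ Easy (k + 1) {y | y ∈ W t ∧ P t v y}} with hX
      obtain ⟨B, hBX, hBc, hB⟩ := hP t X (fun x hx => hx.1)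
      set Y := {y | y ∈ W t ∧ ∀ x ∈ X, ¬ P t x y} with hY
      have hYh : ¬ Easy 0 Y := by
        intro hYe
        refine hW t (hU1 k (W t) (Option B)
          (fun o => Option.elim o Y (fun b => {y | y ∈ W t ∧ P t b.1 y})) ?_ ?_ ?_)
        · rw [Fintype.card_option, Fintype.card_coe]
          omega
        · rintro (_ | b)
          · exact hup 0 _ _ (by omega) hYe
          · exact (hBX b.1 b.2).2
        · intro y hy
          by_cases hb : ∃ b ∈ B, P t b y
          · obtain ⟨b, hb, hPb⟩ := hb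
            exact ⟨some ⟨b, hb⟩, hy, hPb⟩
          · push Not at hb
            exact ⟨none, hy, hB y hy hb⟩
      refine Or.inr ⟨X, Y, ht, hYh, ?_⟩
      rcases t with j | a
      · exact Or.inl ⟨0, j.succ, Fin.succ_pos j, fun x hx => hx.1, fun y hy => hy.1,
          fun x hx y hy => hy.2 x hx⟩
      · exact Or.inr ⟨0, a, fun x hx => hx.1, fun y hy => hy.1, fun x hx y hy => hy.2 x hx⟩

end embed

end Pool.Agent.X246.RSH
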