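import Pool.Agent.X246.RSH.Shatter
import Pool.Agent.H630R2.LR.Hankel

/-!
# Robust shattering for communication protocols
-/

set_option autoImplicit false

namespace Pool.Agent.X246.RSH

open Finset Pool.Agent.H630R2.LR

theorem proto_of_isEmptyX {X Y : Type} [IsEmpty X] (F : X → Y → Bool) (c : ℕ) : Proto F c :=
  (Proto.const F false (fun x => isEmptyElim x)).mono (Nat.zero_le _)

theorem proto_of_isEmptyY {X Y : Type} [IsEmpty Y] (F : X → Y → Bool) (c : ℕ) : Proto F c :=
  (Proto.const F false (fun _ y => isEmptyElim y)).mono (Nat.zero_le _)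

/-- a protocol on a set of columns extends to a protocol for some function on all columns -/
theorem proto_extend {X Y : Type} (F : X → Y → Bool) (S : Set Y) {c : ℕ}
    (h : Proto (fun (x : X) (y : S) => F x y.1) c) :
    ∃ F' : X → Y → Bool, Proto F' c ∧ ∀ x, ∀ y ∈ S, F' x y = F x y := by
  classical
  rcases S.eq_empty_or_nonempty with rfl | ⟨y0, hy0⟩
  · exact ⟨fun _ _ => false, (Proto.const _ false fun _ _ => rfl).mono (Nat.zero_le _),
      fun x y hy => absurd hy (by simp)⟩
  · refine ⟨_, h.comap id (fun y => if hy : y ∈ S then ⟨y, hy⟩ else ⟨y0, hy0⟩), ?_⟩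
    intro x y hy
    simp [hy]

theorem proto_coverY {X Y : Type} (F : X → Y → Bool) (ι : Type) [Fintype ι] (f : ι → Set Y)
    {c : ℕ} (h : ∀ a, Proto (fun (x : X) (y : f a) => F x y.1) c) (hc : ∀ y, ∃ a, y ∈ f a)
    {n : ℕ} (hn : Fintype.card ι ≤ n) : Proto F (c + Nat.clog 2 n) := by
  choose g hg using hc
  choose F' hF' hFe using fun a => proto_extend F (f a) (h a)
  exact Proto.sendY F g (Nat.clog 2 n) (hn.trans (Nat.le_pow_clog (by norm_num) _)) F' c hF'
    (fun x y => (hFe (g y) x y (hg y)).symm)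

theorem proto_coverX {X Y : Type} (F : X → Y → Bool) (ι : Type) [Fintype ι] (f : ι → Set X)
    {c : ℕ} (h : ∀ a, Proto (fun (x : f a) (y : Y) => F x.1 y) c) (hc : ∀ x, ∃ a, x ∈ f a)
    {n : ℕ} (hn : Fintype.card ι ≤ n) : Proto F (c + Nat.clog 2 n) :=
  (proto_coverY (fun y x => F x y) ι f (fun a => (h a).swap) hc hn).swap

/-- the rank of the communication matrix, over `K` -/
noncomputable def crk (K : Type) [Field K] {X Y : Type} [Fintype Y] (F : X → Y → Bool) : ℕ :=
  (ind K fun x y => F x y = true).rank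

variable {K : Type} [Field K]

theorem ind_eq_iff {X Y : Type} {E : X → Y → Prop} {x : X} {y y' : Y} :
    ind K E x y = ind K E x y' ↔ (E x y ↔ E x y') := by
  by_cases h3 : E x y
  · by_cases h4 : E x y'
    · simp [ind_pos h3, ind_pos h4, h3, h4]
    · simp [ind_pos h3, ind_neg h4, h3, h4]
  · by_cases h4 : E x y'
    · simp [ind_neg h3, ind_pos h4, h3, h4]
    · simp [ind_neg h3, ind_neg h4, h3, h4]

theorem col_eq {X Y : Type} [Fintype X] [Fintype Y] (F : X → Y → Bool) {B : Finset X}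
    (hs : ∀ x : X, (ind K fun x y => F x y = true).row x ∈
      Submodule.span K ((ind K fun x y => F x y = true).row '' B)) {y y' : Y}
    (h : ∀ b ∈ B, (F b y = true ↔ F b y' = true)) (x : X) : F x y = F x y' := by
  have h1 := apply_eq_zero ((LinearMap.proj y : (Y → K) →ₗ[K] K) - LinearMap.proj y')
    (fun b hb => sub_eq_zero.2 ((ind_eq_iff (E := fun x y => F x y = true)).2 (h b hb))) (hs x)
  have h2 := (ind_eq_iff (K := K) (E := fun x y => F x y = true)).1 (sub_eq_zero.1 h1)
  exact Bool.eq_iff_iff.2 h2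

theorem proto_rank {X Y : Type} [Fintype X] [Fintype Y] (F : X → Y → Bool) {r : ℕ}
    (hr : crk K F ≤ r) : Proto F (1 + r) := by
  classical
  obtain ⟨B, -, hc, hs⟩ := rows_basis (ind K fun x y => F x y = true) Set.univ
  have h1 := proto_coverY F (B → Bool) (fun a => {y | ∀ b : B, F b.1 y = a b}) (c := 1) (by
    intro a
    by_cases hne : ∃ y0 : Y, ∀ b : B, F b.1 y0 = a b
    · obtain ⟨y0, hy0⟩ := hne
      have h2 : (fun (x : X) (y : {y | ∀ b : B, F b.1 y = a b}) => F x y.1) =
          fun x _ => F x y0 := by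
        funext x y
        refine col_eq (K := K) F (fun z => hs z (Set.mem_univ _)) (fun b hb => ?_) x
        rw [y.2 ⟨b, hb⟩, hy0 ⟨b, hb⟩]
      rw [h2]
      exact proto_aliceKnows _
    · have : IsEmpty {y | ∀ b : B, F b.1 y = a b} := ⟨fun y => hne ⟨y.1, y.2⟩⟩
      exact proto_of_isEmptyY _ _) (fun y => ⟨fun b => F b.1 y, fun b => rfl⟩)
    (n := 2 ^ r) (by
      rw [Fintype.card_fun, Fintype.card_bool, Fintype.card_coe]
      exact Nat.pow_le_pow_right (by norm_num) (hc.trans hr))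
  rwa [Nat.clog_pow 2 r (by norm_num)] at h1

/-- robust shattering, one-sided -/
theorem shatter_proto {X Y : Type} [Fintype X] [Fintype Y] (F : X → Y → Bool) {r : ℕ}
    (hr : crk K F ≤ r) (s d : ℕ) (hd : 1 ≤ d)
    (hF : ¬ Proto F (d + Nat.clog 2 (∑ i ∈ range (s + 1), r.choose i))) :
    ∃ S : Finset X, S.card = s ∧
      ∀ P ⊆ S, ¬ Proto (fun (x : X) (y : {y | ∀ v ∈ S, F v y = true ↔ v ∈ P}) => F x y.1) d := by
  classical
  by_contra hcon
  push Not at hcon
  obtain ⟨B, -, hBc, hs⟩ := rows_basis (ind K fun x y => F x y = true) Set.univ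
  obtain ⟨Q, C, hQ, hCc, hC, hcov⟩ := classes (Y := Y) (fun x y => F x y = true) B (hBc.trans hr) s
    (fun Z => Proto (fun (x : X) (y : Z) => F x y.1) d) hcon
  refine hF (proto_coverY F (Q ⊕ {S : Finset B // S.card = s})
    (Sum.elim (fun A => {y | ∀ b : B, F b.1 y = true ↔ b ∈ A.1}) C) ?_ ?_ ?_)
  · rintro (A | S)
    · by_cases hne : ∃ y0 : Y, ∀ b : B, F b.1 y0 = true ↔ b ∈ A.1
      · obtain ⟨y0, hy0⟩ := hne
        have h2 : (fun (x : X) (y : {y | ∀ b : B, F b.1 y = true ↔ b ∈ A.1}) => F x y.1) =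
            fun x _ => F x y0 := by
          funext x y
          refine col_eq (K := K) F (fun z => hs z (Set.mem_univ _)) (fun b hb => ?_) x
          exact (y.2 ⟨b, hb⟩).trans (hy0 ⟨b, hb⟩).symm
        show Proto (fun (x : X) (y : {y | ∀ b : B, F b.1 y = true ↔ b ∈ A.1}) => F x y.1) d
        rw [h2]
        exact (proto_aliceKnows _).mono hd
      · have : IsEmpty {y | ∀ b : B, F b.1 y = true ↔ b ∈ A.1} := ⟨fun y => hne ⟨y.1, y.2⟩⟩
        show Proto (fun (x : X) (y : {y | ∀ b : B, F b.1 y = true ↔ b ∈ A.1}) => F x y.1) d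
        exact proto_of_isEmptyY _ _
    · exact hC S
  · intro y
    rcases hcov y with ⟨A, hA, h⟩ | ⟨S, hS⟩
    · exact ⟨Sum.inl ⟨A, hA⟩, h⟩
    · exact ⟨Sum.inr S, hS⟩
  · rw [Fintype.card_sum, Fintype.card_coe, sum_range_succ]
    exact add_le_add hQ hCc

end Pool.Agent.X246.RSH
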