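import Pool.Agent.X246.RSH.Core

/-!
# Robustly shattered induced subgraphs of graphs of small rank
-/

set_option autoImplicit false

namespace Pool.Agent.X246.RSH

open Finset

theorem pow_aux (k : ℕ) : k + 2 ^ k ≤ 4 ^ k := by
  have h1 : k + 1 ≤ 2 ^ k := Nat.lt_two_pow_self
  have h2 : (4 : ℕ) ^ k = 2 ^ k * 2 ^ k := by
    rw [← mul_pow]
    norm_num
  rcases Nat.eq_zero_or_pos k with rfl | hk
  · simp
  · have h3 : 2 ≤ 2 ^ k := by
      calc 2 = 2 ^ 1 := (pow_one 2).symm
        _ ≤ 2 ^ k := Nat.pow_le_pow_right (by norm_num) hk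
    rw [h2]
    nlinarith

theorem exp_succ (m : ℕ) : (m + 1) * (m + 1 + 11) / 2 = m * (m + 11) / 2 + (m + 6) := by
  have h1 : (m + 1) * (m + 1 + 11) = m * (m + 11) + (m + 6) * 2 := by ring
  rw [h1, Nat.add_mul_div_right _ _ (by norm_num)]

theorem colorable_mono_set {V : Type} (G : SimpleGraph V) {S T : Set V} (h : S ⊆ T) {D : ℕ}
    (hT : (G.induce T).Colorable D) : (G.induce S).Colorable D :=
  SimpleGraph.Colorable.of_hom (G.induceHomOfLE h).toHom hT

theorem colorable_cover {V : Type} (G : SimpleGraph V) (S : Set V) (ι : Type) [Fintype ι]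
    (f : ι → Set V) (D : ℕ) (h : ∀ a, (G.induce (f a)).Colorable D)
    (hc : ∀ x ∈ S, ∃ a, x ∈ f a) : (G.induce S).Colorable (Fintype.card ι * D) := by
  classical
  choose c hcc using hc
  have hcol : ∀ a, ∃ col : (G.induce (f a)).Coloring (Fin D), True := fun a => by
    obtain ⟨col⟩ := h a
    exact ⟨col, trivial⟩
  choose col _ using hcol
  have : (G.induce S).Coloring (ι × Fin D) := by
    refine SimpleGraph.Coloring.mk
      (fun x => (c x.1 x.2, col (c x.1 x.2) ⟨x.1, hcc x.1 x.2⟩)) ?_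
    intro x y hxy heq
    rw [Prod.mk.injEq] at heq
    obtain ⟨h1, h2⟩ := heq
    have h3 : ∀ (a b : ι) (ha : x.1 ∈ f a) (hb : y.1 ∈ f b), a = b →
        col a ⟨x.1, ha⟩ ≠ col b ⟨y.1, hb⟩ := by
      rintro a b ha hb rfl
      exact (col a).valid hxy
    exact h3 _ _ _ _ h1 h2
  have h4 := this.colorable
  rwa [Fintype.card_prod, Fintype.card_fin] at h4

variable {K : Type} [Field K]

theorem row_eq {V : Type} [Fintype V] (G : SimpleGraph V) {B : Finset V}
    (hs : ∀ x : V, (ind K G.Adj).row x ∈ Submodule.span K ((ind K G.Adj).row '' B)) {y y' : V}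
    (h : ∀ b ∈ B, (G.Adj b y ↔ G.Adj b y')) : ¬ G.Adj y y' := by
  intro hadj
  have h1 := apply_eq_zero ((LinearMap.proj y : (V → K) →ₗ[K] K) - LinearMap.proj y')
    (fun b hb => by
      have h2 := h b hb
      show ind K G.Adj b y - ind K G.Adj b y' = 0
      by_cases h3 : G.Adj b y
      · rw [ind_pos h3, ind_pos (h2.1 h3), sub_self]
      · rw [ind_neg h3, ind_neg (fun h4 => h3 (h2.2 h4)), sub_self]) (hs y)
  have h2 : ind K G.Adj y y - ind K G.Adj y y' = 0 := h1
  rw [ind_neg (G.loopless.irrefl y), ind_pos hadj] at h2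
  simp at h2

theorem colorable_two_pow {V : Type} [Fintype V] (G : SimpleGraph V) {r : ℕ}
    (hr : (ind K G.Adj).rank ≤ r) : G.Colorable (2 ^ r) := by
  classical
  obtain ⟨B, -, hc, hs⟩ := rows_basis (ind K G.Adj) Set.univ
  have hcol : G.Coloring (B → Bool) := by
    refine SimpleGraph.Coloring.mk (fun x b => decide (G.Adj b.1 x)) ?_
    intro x y hxy heq
    refine row_eq (K := K) G (fun x => hs x (Set.mem_univ _)) (fun b hb => ?_) hxy
    have := congrFun heq ⟨b, hb⟩
    simpa using this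
  have h1 := hcol.colorable
  rw [Fintype.card_fun, Fintype.card_bool, Fintype.card_coe] at h1
  exact h1.mono (Nat.pow_le_pow_right (by norm_num) (hc.trans hr))

/-- either a robust copy of `H`, or a homogeneous pair of hard sets -/
theorem graph_step {V : Type} [Fintype V] (G : SimpleGraph V) {N : ℕ}
    (hr : (ind K G.Adj).rank + 1 ≤ N) (k : ℕ) (H : SimpleGraph (Fin k)) (D : ℕ)
    (hG : ¬ G.Colorable (D * (k + 2 ^ k) * (N + 1) ^ k)) :
    (∃ f : Fin k → V, (∀ i j, G.Adj (f i) (f j) ↔ H.Adj i j) ∧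
      ∀ P : Set (Fin k), ¬ (G.induce {x | ∀ i, G.Adj (f i) x ↔ i ∈ P}).Colorable D) ∨
    ∃ (X Y : Set V) (σ : Prop), ¬ (G.induce X).Colorable D ∧ ¬ (G.induce Y).Colorable D ∧
      ∀ x ∈ X, ∀ y ∈ Y, (G.Adj x y ↔ σ) := by
  classical
  let lev : ℕ → ℕ := fun i => match i with
    | 0 => D
    | i + 1 => D * (k + 2 ^ k) * (N + 1) ^ i
  have hpos : 1 ≤ k + 2 ^ k := le_trans Nat.one_le_two_pow (Nat.le_add_left _ _)
  have hD1 : D ≤ D * (k + 2 ^ k) := Nat.le_mul_of_pos_right _ hpos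
  have huniv : ∀ D', ¬ G.Colorable D' → ¬ (G.induce (Set.univ : Set V)).Colorable D' := by
    intro D' h1 h2
    exact h1 (SimpleGraph.Colorable.of_hom
      (⟨fun x => ⟨x, Set.mem_univ x⟩, fun h => h⟩ : G →g G.induce (Set.univ : Set V)) h2)
  have key := embed (V := V) (fun i S => (G.induce S).Colorable (lev i)) N (k + 2 ^ k)
    (fun i S T hST hT => colorable_mono_set G hST hT)
    (fun i S hS => by
      refine hS.mono ?_
      rcases i with _ | i
      · simpa [lev] using hD1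
      · show D * (k + 2 ^ k) * (N + 1) ^ i ≤ D * (k + 2 ^ k) * (N + 1) ^ (i + 1)
        exact Nat.mul_le_mul_left _ (Nat.pow_le_pow_right (by omega) (by omega)))
    (fun S ι _ f hc h1 h2 => by
      refine (colorable_cover G S ι f D h1 h2).mono ?_
      show Fintype.card ι * D ≤ D * (k + 2 ^ k) * (N + 1) ^ 0
      rw [pow_zero, mul_one, mul_comm]
      exact Nat.mul_le_mul_left _ hc)
    (fun i S ι _ f hc h1 h2 => by
      refine (colorable_cover G S ι f _ h1 h2).mono ?_
      show Fintype.card ι * (D * (k + 2 ^ k) * (N + 1) ^ i) ≤ D * (k + 2 ^ k) * (N + 1) ^ (i + 1)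
      calc Fintype.card ι * (D * (k + 2 ^ k) * (N + 1) ^ i)
          ≤ (N + 1) * (D * (k + 2 ^ k) * (N + 1) ^ i) := Nat.mul_le_mul_right _ hc
        _ = D * (k + 2 ^ k) * (N + 1) ^ (i + 1) := by ring)
    (Set (Fin k)) k (by simp [Fintype.card_set])
    (fun _ => Set.univ) (fun _ => Set.univ) (fun i j x y => (G.Adj x y ↔ H.Adj i j))
    (fun i P x y => (G.Adj x y ↔ i ∈ P)) (fun i j => bas_rank G.Adj _ hr _ _)
    (fun i P => bas_rank G.Adj _ hr _ _) (fun _ => huniv _ hG) (fun _ => huniv _ hG)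
  rcases key with ⟨f, -, hf, hP⟩ | ⟨X, Y, hX, hY, h⟩
  · refine Or.inl ⟨f, fun i j => ?_, fun P hcol => ?_⟩
    · rcases lt_trichotomy i j with hij | rfl | hij
      · exact hf i j hij
      · exact ⟨fun h => absurd h (G.loopless.irrefl _), fun h => absurd h (H.loopless.irrefl _)⟩
      · rw [G.adj_comm, H.adj_comm]
        exact hf j i hij
    · refine hP P ?_
      have h1 : (G.induce {x | ∀ i, G.Adj (f i) x ↔ i ∈ P}).Colorable (lev 1) :=
        hcol.mono (by simpa [lev] using hD1)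
      exact colorable_mono_set G (fun x hx => hx.2) h1
  · right
    rcases h with ⟨i, j, -, -, -, h⟩ | ⟨i, P, -, -, h⟩
    · refine ⟨X, Y, ¬ H.Adj i j, hX, hY, fun x hx y hy => ?_⟩
      have := h x hx y hy
      tauto
    · refine ⟨X, Y, ¬ i ∈ P, hX, hY, fun x hx y hy => ?_⟩
      have := h x hx y hy
      tauto

theorem robust_graph (m : ℕ) : ∀ {V : Type} [Fintype V] (G : SimpleGraph V),
    (ind K G.Adj).rank ≤ 2 ^ m + 2 → ∀ (k : ℕ) (H : SimpleGraph (Fin k)) (D : ℕ), 8 ≤ D →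
    ¬ G.Colorable (D * 2 ^ (k * (m * (m + 11) / 2))) →
    ∃ f : Fin k → V, (∀ i j, G.Adj (f i) (f j) ↔ H.Adj i j) ∧
      ∀ P : Set (Fin k), ¬ (G.induce {x | ∀ i, G.Adj (f i) x ↔ i ∈ P}).Colorable D := by
  classical
  induction m with
  | zero =>
    intro V _ G hr k H D hD hG
    refine absurd ((colorable_two_pow (K := K) G (r := 3) (by simpa using hr)).mono ?_) hG
    simpa using hD
  | succ m ih =>
    intro V _ G hr k H D hD hG
    set D' := D * 2 ^ (k * (m * (m + 11) / 2)) with hD'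
    have h1 : D' * (k + 2 ^ k) * ((2 ^ (m + 1) + 3) + 1) ^ k ≤
        D * 2 ^ (k * ((m + 1) * (m + 1 + 11) / 2)) := by
      have h2 : (2 ^ (m + 1) + 3) + 1 ≤ 2 ^ (m + 4) := by
        have : 1 ≤ 2 ^ m := Nat.one_le_two_pow
        rw [pow_succ, pow_add]
        omega
      calc D' * (k + 2 ^ k) * ((2 ^ (m + 1) + 3) + 1) ^ k
          ≤ D' * 4 ^ k * (2 ^ (m + 4)) ^ k :=
            Nat.mul_le_mul (Nat.mul_le_mul_left _ (pow_aux k)) (Nat.pow_le_pow_left h2 k)
        _ = D * 2 ^ (k * ((m + 1) * (m + 1 + 11) / 2)) := by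
            have h3 : (4 : ℕ) ^ k = 2 ^ (2 * k) := by
              rw [pow_mul]
              norm_num
            have h4 : (2 ^ (m + 4)) ^ k = 2 ^ ((m + 4) * k) := (pow_mul 2 (m + 4) k).symm
            have h5 : k * (m * (m + 11) / 2 + (m + 6)) =
                k * (m * (m + 11) / 2) + (2 * k + (m + 4) * k) := by ring
            rw [exp_succ, hD', h3, h4, h5, pow_add 2 (k * (m * (m + 11) / 2)), pow_add 2 (2 * k)]
            ring
    have hD'le : D ≤ D' := Nat.le_mul_of_pos_right _ (by positivity)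
    rcases graph_step (K := K) G (N := 2 ^ (m + 1) + 3) (by omega) k H D'
      (fun h => hG (h.mono h1)) with ⟨f, hf, hP⟩ | ⟨X, Y, σ, hX, hY, h⟩
    · exact ⟨f, hf, fun P hc => hP P (hc.mono hD'le)⟩
    · have : Fintype X := Fintype.ofFinite _
      have : Fintype Y := Fintype.ofFinite _
      have h2 : (ind K fun (a : X) (y : V) => G.Adj a.1 y).rank +
          (ind K fun (x : V) (b : Y) => G.Adj x b.1).rank ≤ (ind K G.Adj).rank + 3 :=
        rank_pair (K := K) G.Adj X Y σ h (Subtype.val : X → V) (Subtype.val : Y → V)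
          (fun a => a.2) (fun b => b.2)
      have hstep : ∀ (Z : Set V) [Fintype Z], ¬ (G.induce Z).Colorable D' →
          (ind K (G.induce Z).Adj).rank ≤ 2 ^ m + 2 →
          ∃ f : Fin k → V, (∀ i j, G.Adj (f i) (f j) ↔ H.Adj i j) ∧
            ∀ P : Set (Fin k), ¬ (G.induce {x | ∀ i, G.Adj (f i) x ↔ i ∈ P}).Colorable D := by
        intro Z _ hZ hrZ
        obtain ⟨f, hf, hP⟩ := ih (G.induce Z) hrZ k H D hD hZ
        refine ⟨fun i => (f i).1, fun i j => hf i j, fun P hc => hP P ?_⟩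
        exact SimpleGraph.Colorable.of_hom
          (⟨fun x => ⟨x.1.1, fun i => x.2 i⟩, fun h => h⟩ :
            ((G.induce Z).induce {x | ∀ i, (G.induce Z).Adj (f i) x ↔ i ∈ P}) →g
              G.induce {x | ∀ i, G.Adj (f i).1 x ↔ i ∈ P}) hc
      have h3 : (ind K (G.induce X).Adj).rank ≤ (ind K fun (a : X) (y : V) => G.Adj a.1 y).rank :=
        Matrix.rank_submatrix_le (ind K fun (a : X) (y : V) => G.Adj a.1 y) id Subtype.val
      have h4 : (ind K (G.induce Y).Adj).rank ≤ (ind K fun (x : V) (b : Y) => G.Adj x b.1).rank :=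
        Matrix.rank_submatrix_le (ind K fun (x : V) (b : Y) => G.Adj x b.1) Subtype.val id
      have h5 : 2 ^ (m + 1) = 2 * 2 ^ m := by rw [pow_succ]; ring
      rcases Nat.lt_or_ge (2 ^ m + 2) (ind K (G.induce X).Adj).rank with h6 | h6
      · exact hstep Y hY (by omega)
      · exact hstep X hX h6

end Pool.Agent.X246.RSH
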