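import Pool.Agent.X246.RSH.Graph

/-!
# Robust shattering
-/

set_option autoImplicit false

namespace Pool.Agent.X246.RSH

open Finset

/-- decomposition along a family of patterns (Sauer-Shelah-Pajor) -/
theorem decomp {α Y : Type} [Fintype α] [DecidableEq α] (τ : Y → Finset α) (s : ℕ)
    (P : Finset α → Finset α) (hP : ∀ S, S.card = s → P S ⊆ S) :
    ∃ Q : Finset (Finset α), Q.card ≤ ∑ i ∈ range s, (Fintype.card α).choose i ∧
      ∀ y, τ y ∈ Q ∨ ∃ S : Finset α, S.card = s ∧ S ∩ τ y = P S := by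
  classical
  set Q := (univ : Finset (Finset α)).filter (fun A => ∀ S : Finset α, S.card = s → S ∩ A ≠ P S)
    with hQ
  refine ⟨Q, ?_, fun y => ?_⟩
  · have h1 : Q.shatterer ⊆ (range s).biUnion (fun i => powersetCard i (univ : Finset α)) := by
      intro T hT
      rw [mem_shatterer] at hT
      rw [mem_biUnion]
      refine ⟨T.card, ?_, ?_⟩
      · rw [mem_range]
        by_contra hcon
        push Not at hcon
        obtain ⟨S, hST, hSc⟩ := exists_subset_card_eq hcon
        obtain ⟨A, hA, hSA⟩ := hT.mono_right hST (hP S hSc)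
        rw [hQ, mem_filter] at hA
        exact hA.2 S hSc hSA
      · rw [mem_powersetCard]
        exact ⟨subset_univ _, rfl⟩
    calc Q.card ≤ Q.shatterer.card := card_le_card_shatterer Q
      _ ≤ _ := card_le_card h1
      _ ≤ ∑ i ∈ range s, (powersetCard i (univ : Finset α)).card := card_biUnion_le
      _ = _ := by
        refine sum_congr rfl fun i _ => ?_
        rw [card_powersetCard, card_univ]
  · by_cases h : τ y ∈ Q
    · exact Or.inl h
    · rw [hQ, mem_filter] at h
      push Not at h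
      obtain ⟨S, hS, he⟩ := h (mem_univ _)
      exact Or.inr ⟨S, hS, he⟩

theorem colorable_union {V : Type} (G : SimpleGraph V) (S T : Set V) {a b : ℕ}
    (hS : (G.induce S).Colorable a) (hT : (G.induce T).Colorable b) (h : ∀ x, x ∈ S ∨ x ∈ T) :
    G.Colorable (a + b) := by
  classical
  obtain ⟨c⟩ := hS
  obtain ⟨c'⟩ := hT
  have hmem : ∀ x, x ∉ S → x ∈ T := fun x hx => (h x).resolve_left hx
  have : G.Coloring (Fin a ⊕ Fin b) := by
    refine SimpleGraph.Coloring.mk
      (fun x => if hx : x ∈ S then Sum.inl (c ⟨x, hx⟩) else Sum.inr (c' ⟨x, hmem x hx⟩)) ?_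
    intro x y hxy
    by_cases hx : x ∈ S
    · by_cases hy : y ∈ S
      · simp only [hx, hy, dite_true, ne_eq, Sum.inl.injEq]
        exact c.valid hxy
      · simp [hx, hy]
    · by_cases hy : y ∈ S
      · simp [hx, hy]
      · simp only [hx, hy, dite_false, ne_eq, Sum.inr.injEq]
        exact c'.valid hxy
  have h1 := this.colorable
  rwa [Fintype.card_sum, Fintype.card_fin, Fintype.card_fin] at h1

variable {K : Type} [Field K]

/-- the common combinatorial part: patterns that are easy for all `s`-sets of basis rows -/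
theorem classes {V Y : Type} [Fintype V] (E : V → Y → Prop) (B : Finset V) {r : ℕ}
    (hB : B.card ≤ r) (s : ℕ) (Ez : Set Y → Prop)
    (h : ∀ S : Finset V, S.card = s → ∃ P ⊆ S, Ez {y | ∀ v ∈ S, E v y ↔ v ∈ P}) :
    ∃ (Q : Finset (Finset B)) (C : {S : Finset B // S.card = s} → Set Y),
      Q.card ≤ ∑ i ∈ range s, r.choose i ∧ Fintype.card {S : Finset B // S.card = s} ≤ r.choose s ∧
      (∀ S, Ez (C S)) ∧
      ∀ y, (∃ A ∈ Q, ∀ b : B, E b.1 y ↔ b ∈ A) ∨ ∃ S, y ∈ C S := by
  classical
  have h1 : ∀ S : Finset B, ∃ P : Finset B, S.card = s →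
      P ⊆ S ∧ Ez {y | ∀ v ∈ S, E v.1 y ↔ v ∈ P} := by
    intro S
    by_cases hS : S.card = s
    · obtain ⟨P, hP, he⟩ := h (S.map (Function.Embedding.subtype _)) (by rw [card_map]; exact hS)
      obtain ⟨P', hP', rfl⟩ := Finset.subset_map_iff.1 hP
      refine ⟨P', fun _ => ⟨hP', ?_⟩⟩
      convert he using 1
      ext y
      simp only [Set.mem_setOf_eq, Finset.mem_map, Function.Embedding.subtype_apply,
        forall_exists_index, and_imp]
      constructor
      · rintro hy _ v hv rfl
        rw [hy v hv]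
        constructor
        · intro hv'
          exact ⟨v, hv', rfl⟩
        · rintro ⟨w, hw, hwv⟩
          rwa [← Subtype.ext hwv]
      · intro hy v hv
        rw [hy v.1 v hv rfl]
        constructor
        · rintro ⟨w, hw, hwv⟩
          rwa [← Subtype.ext hwv]
        · intro hv'
          exact ⟨v, hv', rfl⟩
    · exact ⟨∅, fun h => absurd h hS⟩
  choose P hP using h1
  have hcard : Fintype.card B ≤ r := by rw [Fintype.card_coe]; exact hB
  obtain ⟨Q, hQ, hcov⟩ := decomp (fun y : Y => (univ : Finset B).filter fun b => E b.1 y) s P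
    (fun S hS => (hP S hS).1)
  refine ⟨Q, fun S => {y | ∀ v ∈ S.1, E v.1 y ↔ v ∈ P S.1}, ?_, ?_, fun S => (hP S.1 S.2).2, ?_⟩
  · exact hQ.trans (sum_le_sum fun i _ => Nat.choose_le_choose i hcard)
  · rw [Fintype.card_finset_len]
    exact Nat.choose_le_choose s hcard
  · intro y
    rcases hcov y with h2 | ⟨S, hS, h2⟩
    · refine Or.inl ⟨_, h2, fun b => ?_⟩
      simp
    · refine Or.inr ⟨⟨S, hS⟩, fun v hv => ?_⟩
      rw [← h2, mem_inter, mem_filter]
      constructor
      · intro h3
        exact ⟨hv, mem_univ _, h3⟩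
      · intro h3
        exact h3.2.2

theorem shatter_graph {V : Type} [Fintype V] (G : SimpleGraph V) {r : ℕ}
    (hr : (ind K G.Adj).rank ≤ r) (s D : ℕ)
    (hG : ¬ G.Colorable (∑ i ∈ range s, r.choose i + r.choose s * D)) :
    ∃ S : Finset V, S.card = s ∧
      ∀ P ⊆ S, ¬ (G.induce {x | ∀ v ∈ S, G.Adj v x ↔ v ∈ P}).Colorable D := by
  classical
  by_contra hcon
  push Not at hcon
  obtain ⟨B, -, hBc, hs⟩ := rows_basis (ind K G.Adj) Set.univ
  obtain ⟨Q, C, hQ, hCc, hC, hcov⟩ := classes (Y := V) G.Adj B (hBc.trans hr) s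
    (fun Z => (G.induce Z).Colorable D) hcon
  have h1 : (G.induce {x | ∃ A ∈ Q, ∀ b : B, G.Adj b.1 x ↔ b ∈ A}).Colorable Q.card := by
    have h2 := colorable_cover G {x | ∃ A ∈ Q, ∀ b : B, G.Adj b.1 x ↔ b ∈ A} Q
      (fun A => {x | ∀ b : B, G.Adj b.1 x ↔ b ∈ A.1}) 1 (by
        intro A
        refine ⟨SimpleGraph.Coloring.mk (fun _ => 0) ?_⟩
        intro x y hxy
        exfalso
        refine row_eq (K := K) G (fun z => hs z (Set.mem_univ _)) (fun b hb => ?_) hxy
        exact (x.2 ⟨b, hb⟩).trans (y.2 ⟨b, hb⟩).symm) (by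
        rintro x ⟨A, hA, hx⟩
        exact ⟨⟨A, hA⟩, hx⟩)
    rwa [Fintype.card_coe, mul_one] at h2
  have h2 : (G.induce {x | ∃ S, x ∈ C S}).Colorable
      (Fintype.card {S : Finset B // S.card = s} * D) :=
    colorable_cover G _ _ C D hC (fun x hx => hx)
  refine hG ((colorable_union G _ _ h1 h2 hcov).mono ?_)
  exact add_le_add hQ (Nat.mul_le_mul_right _ hCc)

end Pool.Agent.X246.RSH
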