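import Pool.Agent.X246.RSH.Comm

/-!
# Two-sided robust patterns in communication matrices
-/

set_option autoImplicit false

namespace Pool.Agent.X246.RSH

open Finset Pool.Agent.H630R2.LR

section two

variable {X Y : Type}

/-- a protocol on the rows of `S` -/
def PR (F : X → Y → Bool) (c : ℕ) (S : Set (X ⊕ Y)) : Prop :=
  Proto (fun (x : {x : X | Sum.inl x ∈ S}) (y : Y) => F x.1 y) c

/-- a protocol on the columns of `S` -/
def PC (F : X → Y → Bool) (c : ℕ) (S : Set (X ⊕ Y)) : Prop :=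
  Proto (fun (x : X) (y : {y : Y | Sum.inr y ∈ S}) => F x y.1) c

theorem PR_mono {F : X → Y → Bool} {c : ℕ} {S T : Set (X ⊕ Y)} (h : S ⊆ T) (hT : PR F c T) :
    PR F c S :=
  Proto.comap hT (fun x : {x : X | Sum.inl x ∈ S} => ⟨x.1, h x.2⟩) id

theorem PC_mono {F : X → Y → Bool} {c : ℕ} {S T : Set (X ⊕ Y)} (h : S ⊆ T) (hT : PC F c T) :
    PC F c S :=
  Proto.comap hT id (fun y : {y : Y | Sum.inr y ∈ S} => ⟨y.1, h y.2⟩)

theorem PR_cover {F : X → Y → Bool} {c n : ℕ} {S : Set (X ⊕ Y)} (ι : Type) [Fintype ι]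
    (f : ι → Set (X ⊕ Y)) (hn : Fintype.card ι ≤ n) (h : ∀ a, PR F c (f a))
    (hc : ∀ x ∈ S, ∃ a, x ∈ f a) : PR F (c + Nat.clog 2 n) S :=
  proto_coverX (fun (x : {x : X | Sum.inl x ∈ S}) (y : Y) => F x.1 y) ι
    (fun a => {x | Sum.inl x.1 ∈ f a})
    (fun a => Proto.comap (h a)
      (fun x : {x : {x : X | Sum.inl x ∈ S} | Sum.inl x.1 ∈ f a} => ⟨x.1.1, x.2⟩) id)
    (fun x => hc _ x.2) hn

theorem PC_cover {F : X → Y → Bool} {c n : ℕ} {S : Set (X ⊕ Y)} (ι : Type) [Fintype ι]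
    (f : ι → Set (X ⊕ Y)) (hn : Fintype.card ι ≤ n) (h : ∀ a, PC F c (f a))
    (hc : ∀ x ∈ S, ∃ a, x ∈ f a) : PC F (c + Nat.clog 2 n) S :=
  proto_coverY (fun (x : X) (y : {y : Y | Sum.inr y ∈ S}) => F x y.1) ι
    (fun a => {y | Sum.inr y.1 ∈ f a})
    (fun a => Proto.comap (h a) id
      (fun y : {y : {y : Y | Sum.inr y ∈ S} | Sum.inr y.1 ∈ f a} => ⟨y.1.1, y.2⟩))
    (fun y => hc _ y.2) hn

theorem PR_inr {F : X → Y → Bool} {c : ℕ} {S : Set (X ⊕ Y)} (h : S ⊆ Set.range Sum.inr) :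
    PR F c S := by
  have : IsEmpty {x : X | (Sum.inl x : X ⊕ Y) ∈ S} := ⟨fun x => by
    obtain ⟨y, hy⟩ := h x.2
    cases hy⟩
  exact proto_of_isEmptyX _ _

theorem PC_inl {F : X → Y → Bool} {c : ℕ} {S : Set (X ⊕ Y)} (h : S ⊆ Set.range Sum.inl) :
    PC F c S := by
  have : IsEmpty {y : Y | (Sum.inr y : X ⊕ Y) ∈ S} := ⟨fun y => by
    obtain ⟨x, hx⟩ := h y.2
    cases hx⟩
  exact proto_of_isEmptyY _ _

/-- the relation on rows and columns -/
def rel (F : X → Y → Bool) : X ⊕ Y → X ⊕ Y → Prop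
  | Sum.inl x, Sum.inr y => F x y = true
  | Sum.inr y, Sum.inl x => F x y = true
  | _, _ => False

/-- where the vertex is chosen -/
def side {s t : ℕ} : Fin s ⊕ Fin t → Set (X ⊕ Y)
  | Sum.inl _ => Set.range Sum.inl
  | Sum.inr _ => Set.range Sum.inr

/-- constraints between chosen vertices -/
def RR (F : X → Y → Bool) {s t : ℕ} (M : Fin s → Fin t → Prop) :
    Fin s ⊕ Fin t → Fin s ⊕ Fin t → X ⊕ Y → X ⊕ Y → Prop
  | Sum.inl a, Sum.inr b => fun u v => (rel F u v ↔ M a b)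
  | _, _ => fun _ _ => True

/-- constraints for the pattern classes -/
def QQ (F : X → Y → Bool) {s t : ℕ} :
    Fin s ⊕ Fin t → Set (Fin s) ⊕ Set (Fin t) → X ⊕ Y → X ⊕ Y → Prop
  | Sum.inl a, Sum.inl P => fun u v => (rel F u v ↔ a ∈ P)
  | Sum.inr b, Sum.inr P => fun u v => (rel F u v ↔ b ∈ P)
  | _, _ => fun _ _ => True

/-- the targets -/
def tgt {s t : ℕ} : Set (Fin s) ⊕ Set (Fin t) → Set (X ⊕ Y)
  | Sum.inl _ => Set.range Sum.inr
  | Sum.inr _ => Set.range Sum.inl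

variable {K : Type} [Field K]

theorem rank_ind_swap [Fintype X] [Fintype Y] (E : X → Y → Prop) :
    (ind K fun y x => E x y).rank = (ind K E).rank := by
  have : (ind K fun y x => E x y) = (ind K E).transpose := rfl
  rw [this, Matrix.rank_transpose]

theorem bas_sum' [Fintype X] [Fintype Y] (E : X → Y → Prop) (σ : Prop) {N : ℕ}
    (hN : (ind K E).rank + 1 ≤ N) (R : X ⊕ Y → X ⊕ Y → Prop)
    (hR : ∀ x y, R (Sum.inr y) (Sum.inl x) ↔ (E x y ↔ σ)) :
    Bas N (Set.range Sum.inr) (Set.range Sum.inl) R := by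
  classical
  intro S hS
  obtain ⟨B, h1, h2, h3⟩ := bas_rows (K := K) (fun y x => E x y) σ (Sum.inr ⁻¹' S)
  rw [rank_ind_swap] at h2
  refine ⟨B.image Sum.inr, ?_, (card_image_le.trans h2).trans hN, ?_⟩
  · intro b hb
    obtain ⟨x, hx, rfl⟩ := mem_image.1 hb
    exact h1 x hx
  · rintro _ ⟨y, rfl⟩ hb x hx
    obtain ⟨x, rfl⟩ := hS hx
    rw [hR]
    exact h3 y (fun b hb' => by
      have := hb (Sum.inr b) (mem_image_of_mem _ hb')
      rwa [hR] at this) x hx

/-- the robust pattern -/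
def Robust (F : X → Y → Bool) (s t : ℕ) (M : Fin s → Fin t → Prop) (c : ℕ) : Prop :=
  ∃ (x : Fin s → X) (y : Fin t → Y), (∀ a b, F (x a) (y b) = true ↔ M a b) ∧
    (∀ P : Set (Fin s), ¬ Proto
      (fun (x' : X) (y' : {y' : Y | ∀ a, F (x a) y' = true ↔ a ∈ P}) => F x' y'.1) c) ∧
    ∀ P : Set (Fin t), ¬ Proto
      (fun (x' : {x' : X | ∀ b, F x' (y b) = true ↔ b ∈ P}) (y' : Y) => F x'.1 y') c

/-- a homogeneous rectangle with hard rows and hard columns -/
def HardPair (F : X → Y → Bool) (c : ℕ) : Prop :=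
  ∃ (A : Set X) (B : Set Y) (σ : Prop), ¬ Proto (fun (x : A) (y : Y) => F x.1 y) c ∧
    ¬ Proto (fun (x : X) (y : B) => F x y.1) c ∧ ∀ x ∈ A, ∀ y ∈ B, (F x y = true ↔ σ)

theorem hardPair_of {F : X → Y → Bool} {c : ℕ} {U W : Set (X ⊕ Y)} {τ : Prop}
    (hU : ¬ PR F c U) (hW : ¬ PC F c W)
    (h : ∀ x y, Sum.inl x ∈ U → Sum.inr y ∈ W → ¬ (F x y = true ↔ τ)) : HardPair F c := by
  refine ⟨{x | Sum.inl x ∈ U}, {y | Sum.inr y ∈ W}, ¬ τ, hU, hW, fun x hx y hy => ?_⟩
  have := h x y hx hy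
  tauto

theorem comm_step [Fintype X] [Fintype Y] (F : X → Y → Bool) {N : ℕ} (hr : crk K F + 1 ≤ N)
    (s t : ℕ) (M : Fin s → Fin t → Prop) (c : ℕ)
    (hF : ¬ Proto F (c + Nat.clog 2 (s + t + (2 ^ s + 2 ^ t)) + (s + t) * Nat.clog 2 (N + 1))) :
    Robust F s t M c ∨ HardPair F c := by
  classical
  set N₀ := s + t + (2 ^ s + 2 ^ t) with hN₀
  let lev : ℕ → ℕ := fun i => match i with
    | 0 => c
    | i + 1 => c + Nat.clog 2 N₀ + i * Nat.clog 2 (N + 1)
  have hlev1 : c ≤ lev 1 := by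
    show c ≤ c + Nat.clog 2 N₀ + 0 * Nat.clog 2 (N + 1)
    omega
  let e : Fin s ⊕ Fin t ≃ Fin (s + t) := finSumFinEquiv
  have hN1 : 1 ≤ N := by omega
  have hBR : ∀ p q, Bas N (side p) (side q) (RR F M p q) := by
    rintro (a | a) (b | b)
    · exact bas_true hN1 _ _
    · exact bas_sum (K := K) (fun x y => F x y = true) (M a b) hr _ (fun x y => Iff.rfl)
    · exact bas_true hN1 _ _
    · exact bas_true hN1 _ _
  have hBQ : ∀ p (q : Set (Fin s) ⊕ Set (Fin t)), Bas N (side p) (tgt q) (QQ F p q) := by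
    rintro (a | a) (P | P)
    · exact bas_sum (K := K) (fun x y => F x y = true) (a ∈ P) hr _ (fun x y => Iff.rfl)
    · exact bas_true hN1 _ _
    · exact bas_true hN1 _ _
    · exact bas_sum' (K := K) (fun x y => F x y = true) (a ∈ P) hr _ (fun x y => Iff.rfl)
  have hrow : ¬ (PR F (lev (s + t + 1)) (Set.range Sum.inl) ∧
      PC F (lev (s + t + 1)) (Set.range Sum.inl)) := by
    rintro ⟨h, -⟩
    exact hF (Proto.comap h (fun x => ⟨x, ⟨x, rfl⟩⟩) id)
  have hcol : ¬ (PR F (lev (s + t + 1)) (Set.range Sum.inr) ∧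
      PC F (lev (s + t + 1)) (Set.range Sum.inr)) := by
    rintro ⟨-, h⟩
    exact hF (Proto.comap h id (fun y => ⟨y, ⟨y, rfl⟩⟩))
  have key := embed (V := X ⊕ Y) (fun i S => PR F (lev i) S ∧ PC F (lev i) S) N N₀
    (fun i S T hST hT => ⟨PR_mono hST hT.1, PC_mono hST hT.2⟩)
    (fun i S hS => by
      have : lev i ≤ lev (i + 1) := by
        rcases i with _ | i
        · exact hlev1
        · show c + Nat.clog 2 N₀ + i * Nat.clog 2 (N + 1) ≤
            c + Nat.clog 2 N₀ + (i + 1) * Nat.clog 2 (N + 1)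
          gcongr
          omega
      exact ⟨Proto.mono hS.1 this, Proto.mono hS.2 this⟩)
    (fun S ι _ f hc h1 h2 => by
      have e1 : lev 1 = c + Nat.clog 2 N₀ := by
        show c + Nat.clog 2 N₀ + 0 * Nat.clog 2 (N + 1) = _
        omega
      rw [e1]
      exact ⟨PR_cover ι f hc (fun a => (h1 a).1) h2, PC_cover ι f hc (fun a => (h1 a).2) h2⟩)
    (fun i S ι _ f hc h1 h2 => by
      have e1 : lev (i + 2) = lev (i + 1) + Nat.clog 2 (N + 1) := by
        show c + Nat.clog 2 N₀ + (i + 1) * Nat.clog 2 (N + 1) =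
          c + Nat.clog 2 N₀ + i * Nat.clog 2 (N + 1) + Nat.clog 2 (N + 1)
        ring
      show PR F (lev (i + 2)) S ∧ PC F (lev (i + 2)) S
      rw [e1]
      exact ⟨PR_cover ι f hc (fun a => (h1 a).1) h2, PC_cover ι f hc (fun a => (h1 a).2) h2⟩)
    (Set (Fin s) ⊕ Set (Fin t)) (s + t)
    (by simp [Fintype.card_set, hN₀])
    (fun i => side (e.symm i)) tgt (fun i j => RR F M (e.symm i) (e.symm j))
    (fun i P => QQ F (e.symm i) P) (fun i j => hBR _ _) (fun i P => hBQ _ _)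
    (fun i => by
      rcases e.symm i with a | b
      · exact hrow
      · exact hcol)
    (fun P => by
      rcases P with P | P
      · exact hcol
      · exact hrow)
  rcases key with ⟨f, hf1, hf2, hf3⟩ | ⟨U, W, hU, hW, h⟩
  · left
    have hx : ∀ a : Fin s, ∃ x : X, Sum.inl x = f (e (Sum.inl a)) := by
      intro a
      have h1 := hf1 (e (Sum.inl a))
      rw [Equiv.symm_apply_apply] at h1
      exact h1
    have hy : ∀ b : Fin t, ∃ y : Y, Sum.inr y = f (e (Sum.inr b)) := by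
      intro b
      have h1 := hf1 (e (Sum.inr b))
      rw [Equiv.symm_apply_apply] at h1
      exact h1
    choose x hx using hx
    choose y hy using hy
    refine ⟨x, y, fun a b => ?_, fun P hP => ?_, fun P hP => ?_⟩
    · have h1 := hf2 (e (Sum.inl a)) (e (Sum.inr b)) (by
        show finSumFinEquiv (Sum.inl a) < finSumFinEquiv (Sum.inr b)
        rw [finSumFinEquiv_apply_left, finSumFinEquiv_apply_right, Fin.lt_def]
        simp only [Fin.val_castAdd, Fin.val_natAdd]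
        omega)
      rw [Equiv.symm_apply_apply, Equiv.symm_apply_apply, ← hx, ← hy] at h1
      exact h1
    · refine hf3 (Sum.inl P) ⟨PR_inr (fun v hv => hv.1), ?_⟩
      refine Proto.mono (Proto.comap hP id
        (fun y' : {y' : Y | Sum.inr y' ∈ {y | y ∈ tgt (Sum.inl P) ∧
          ∀ i, QQ F (e.symm i) (Sum.inl P) (f i) y}} => ⟨y'.1, fun a => ?_⟩)) hlev1
      have h1 := y'.2.2 (e (Sum.inl a))
      rw [Equiv.symm_apply_apply, ← hx] at h1
      exact h1
    · refine hf3 (Sum.inr P) ⟨?_, PC_inl (fun v hv => hv.1)⟩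
      refine Proto.mono (Proto.comap hP
        (fun x' : {x' : X | Sum.inl x' ∈ {y | y ∈ tgt (Sum.inr P) ∧
          ∀ i, QQ F (e.symm i) (Sum.inr P) (f i) y}} => ⟨x'.1, fun b => ?_⟩) id) hlev1
      have h1 := x'.2.2 (e (Sum.inr b))
      rw [Equiv.symm_apply_apply, ← hy] at h1
      exact h1
  · right
    have hne : ∀ Z : Set (X ⊕ Y), ¬ (PR F c Z ∧ PC F c Z) → Z.Nonempty := by
      intro Z hZ
      by_contra hcon
      rw [Set.not_nonempty_iff_eq_empty] at hcon
      subst hcon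
      exact hZ ⟨PR_inr (by simp), PC_inl (by simp)⟩
    obtain ⟨u, hu⟩ := hne U hU
    obtain ⟨w, hw⟩ := hne W hW
    have hUr : U ⊆ Set.range Sum.inl → ¬ PR F c U := fun h1 h2 => hU ⟨h2, PC_inl h1⟩
    have hUc : U ⊆ Set.range Sum.inr → ¬ PC F c U := fun h1 h2 => hU ⟨PR_inr h1, h2⟩
    have hWr : W ⊆ Set.range Sum.inl → ¬ PR F c W := fun h1 h2 => hW ⟨h2, PC_inl h1⟩
    have hWc : W ⊆ Set.range Sum.inr → ¬ PC F c W := fun h1 h2 => hW ⟨PR_inr h1, h2⟩
    rcases h with ⟨i, j, -, h1, h2, h3⟩ | ⟨i, P, h1, h2, h3⟩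
    · rcases hi : e.symm i with a | a
      · rcases hj : e.symm j with b | b
        · simp only [hi, hj, RR, not_true_eq_false] at h3
          exact (h3 u hu w hw).elim
        · simp only [hi, side] at h1
          simp only [hj, side] at h2
          simp only [hi, hj, RR] at h3
          exact hardPair_of (hUr h1) (hWc h2) (fun x y hx hy => h3 _ hx _ hy)
      · rcases hj : e.symm j with b | b
        · simp only [hi, hj, RR, not_true_eq_false] at h3
          exact (h3 u hu w hw).elim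
        · simp only [hi, hj, RR, not_true_eq_false] at h3
          exact (h3 u hu w hw).elim
    · rcases hi : e.symm i with a | a
      · rcases P with P | P
        · simp only [hi, side] at h1
          simp only [tgt] at h2
          simp only [hi, QQ] at h3
          exact hardPair_of (hUr h1) (hWc h2) (fun x y hx hy => h3 _ hx _ hy)
        · simp only [hi, QQ, not_true_eq_false] at h3
          exact (h3 u hu w hw).elim
      · rcases P with P | P
        · simp only [hi, QQ, not_true_eq_false] at h3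
          exact (h3 u hu w hw).elim
        · simp only [hi, side] at h1
          simp only [tgt] at h2
          simp only [hi, QQ] at h3
          exact hardPair_of (hWr h2) (hUc h1) (fun x y hx hy => h3 _ hy _ hx)

end two

theorem clog_aux {k m : ℕ} (s t : ℕ) (hk : s + t = k) (h1 : 1 ≤ k) {N : ℕ}
    (hN : N + 1 ≤ 2 ^ (m + 4)) :
    Nat.clog 2 (s + t + (2 ^ s + 2 ^ t)) + k * Nat.clog 2 (N + 1) ≤ k * (m + 6) := by
  have h2 : k + 1 ≤ 2 ^ k := Nat.lt_two_pow_self
  have h3 : (2 : ℕ) ^ s * 2 ^ t = 2 ^ k := by rw [← pow_add, hk]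
  have h4 : 1 ≤ 2 ^ s := Nat.one_le_two_pow
  have h5 : 1 ≤ 2 ^ t := Nat.one_le_two_pow
  have h6 : 2 ^ s + 2 ^ t ≤ 2 ^ k + 1 := by
    obtain ⟨a, ha⟩ := Nat.exists_eq_add_of_le h4
    obtain ⟨b, hb⟩ := Nat.exists_eq_add_of_le h5
    rw [ha, hb] at h3
    rw [ha, hb, ← h3]
    have : (1 + a) * (1 + b) = 1 + a + b + a * b := by ring
    rw [this]
    omega
  have h7 : s + t + (2 ^ s + 2 ^ t) ≤ 2 ^ (2 * k) := by
    have h8 : (2 : ℕ) ≤ 2 ^ k := by
      calc 2 = 2 ^ 1 := (pow_one 2).symm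
        _ ≤ 2 ^ k := Nat.pow_le_pow_right (by norm_num) h1
    have h9 : (2 : ℕ) ^ (2 * k) = 2 ^ k * 2 ^ k := by rw [two_mul, pow_add]
    rw [h9]
    nlinarith
  have h8 : Nat.clog 2 (s + t + (2 ^ s + 2 ^ t)) ≤ 2 * k := Nat.clog_le_of_le_pow h7
  have h9 : Nat.clog 2 (N + 1) ≤ m + 4 := Nat.clog_le_of_le_pow hN
  calc Nat.clog 2 (s + t + (2 ^ s + 2 ^ t)) + k * Nat.clog 2 (N + 1) ≤ 2 * k + k * (m + 4) := by
        gcongr
    _ = k * (m + 6) := by ring

variable {K : Type} [Field K]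

theorem Robust.mono {X Y : Type} {F : X → Y → Bool} {s t : ℕ} {M : Fin s → Fin t → Prop}
    {c d : ℕ} (h : Robust F s t M c) (hdc : d ≤ c) : Robust F s t M d := by
  obtain ⟨x, y, h1, h2, h3⟩ := h
  exact ⟨x, y, h1, fun P hP => h2 P (hP.mono hdc), fun P hP => h3 P (hP.mono hdc)⟩

theorem Robust.rows {X Y : Type} {F : X → Y → Bool} {s t : ℕ} {M : Fin s → Fin t → Prop}
    {d : ℕ} (A : Set X) (h : Robust (fun (x : A) (y : Y) => F x.1 y) s t M d) :
    Robust F s t M d := by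
  obtain ⟨x, y, h1, h2, h3⟩ := h
  refine ⟨fun a => (x a).1, y, h1, fun P hP => h2 P ?_, fun P hP => h3 P ?_⟩
  · exact Proto.comap hP (fun x' : A => x'.1) id
  · exact Proto.comap hP
      (fun x' : {x' : A | ∀ b, F x'.1 (y b) = true ↔ b ∈ P} => ⟨x'.1.1, x'.2⟩) id

theorem Robust.cols {X Y : Type} {F : X → Y → Bool} {s t : ℕ} {M : Fin s → Fin t → Prop}
    {d : ℕ} (B : Set Y) (h : Robust (fun (x : X) (y : B) => F x y.1) s t M d) :
    Robust F s t M d := by
  obtain ⟨x, y, h1, h2, h3⟩ := h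
  refine ⟨x, fun b => (y b).1, h1, fun P hP => h2 P ?_, fun P hP => h3 P ?_⟩
  · exact Proto.comap hP id
      (fun y' : {y' : B | ∀ a, F (x a) y'.1 = true ↔ a ∈ P} => ⟨y'.1.1, y'.2⟩)
  · exact Proto.comap hP id (fun y' : B => y'.1)

theorem robust_comm (m : ℕ) : ∀ {X Y : Type} [Fintype X] [Fintype Y] (F : X → Y → Bool),
    crk K F ≤ 2 ^ m + 2 → ∀ (s t : ℕ) (M : Fin s → Fin t → Prop) (d : ℕ), 1 ≤ s + t → 4 ≤ d →
    ¬ Proto F (d + (s + t) * (m * (m + 11) / 2)) → Robust F s t M d := by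
  classical
  induction m with
  | zero =>
    intro X Y _ _ F hr s t M d _ hd hF
    refine absurd ((proto_rank (K := K) F (r := 3) (by simpa using hr)).mono ?_) hF
    simpa using hd
  | succ m ih =>
    intro X Y _ _ F hr s t M d hst hd hF
    set c := d + (s + t) * (m * (m + 11) / 2) with hc
    have h1 : 2 ^ (m + 1) + 3 + 1 ≤ 2 ^ (m + 4) := by
      have : 1 ≤ 2 ^ m := Nat.one_le_two_pow
      rw [pow_succ, pow_add]
      omega
    have h2 := clog_aux (m := m) s t rfl hst h1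
    have h3 : c + Nat.clog 2 (s + t + (2 ^ s + 2 ^ t)) +
        (s + t) * Nat.clog 2 (2 ^ (m + 1) + 3 + 1) ≤
        d + (s + t) * ((m + 1) * (m + 1 + 11) / 2) := by
      rw [exp_succ, mul_add (s + t)]
      omega
    have hr' : crk K F + 1 ≤ 2 ^ (m + 1) + 3 := by omega
    rcases comm_step F hr' s t M c (fun h => hF (h.mono h3)) with h | ⟨A, B, σ, hA, hB, h⟩
    · exact h.mono (Nat.le_add_right _ _)
    · have : Fintype A := Fintype.ofFinite _
      have : Fintype B := Fintype.ofFinite _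
      have h4 : crk K (fun (x : A) (y : Y) => F x.1 y) + crk K (fun (x : X) (y : B) => F x y.1) ≤
          crk K F + 3 :=
        rank_pair (K := K) (fun x y => F x y = true) A B σ h (Subtype.val : A → X)
          (Subtype.val : B → Y) (fun a => a.2) (fun b => b.2)
      have h5 : 2 ^ (m + 1) = 2 * 2 ^ m := by rw [pow_succ]; ring
      rcases Nat.lt_or_ge (2 ^ m + 2) (crk K (fun (x : A) (y : Y) => F x.1 y)) with h6 | h6
      · exact (ih (fun (x : X) (y : B) => F x y.1) (by omega) s t M d hst hd hB).cols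
      · exact (ih (fun (x : A) (y : Y) => F x.1 y) h6 s t M d hst hd hA).rows

end Pool.Agent.X246.RSH
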